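import Pool.Agent.helper12.DD.Spec
set_option autoImplicit false
open Pool.Agent.helper49.Blk

namespace Pool.Agent.DD

theorem FIN_fin {α : Type} [Finite α] [PartialOrder α] :
    {C : List α | C.Pairwise (· < ·)}.Finite := by
  classical
  have : Fintype α := Fintype.ofFinite α
  refine (List.finite_length_le α (Fintype.card α)).subset ?_
  intro C hC
  have h1 : C.Nodup := by
    have h2 : C.Pairwise (· < ·) := hC
    exact h2.imp (fun h => ne_of_lt h)
  exact h1.length_le_card

theorem FIN_rt {G : Type} [Group G] (p : ℕ) (C : List (Subgroup G)) :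
    ∀ H P : Subgroup G, RT p H P C → (P :: C).Pairwise (· < ·) := by
  induction C with
  | nil =>
    intro H P _
    exact List.pairwise_singleton _ _
  | cons Q C ih =>
    intro H P h
    obtain ⟨h1, -, h3⟩ := h
    have h4 := ih _ _ h3
    rw [List.pairwise_cons]
    refine ⟨?_, h4⟩
    intro x hx
    rcases List.mem_cons.1 hx with rfl | hx
    · exact h1
    · exact lt_trans h1 ((List.pairwise_cons.1 h4).1 x hx)

theorem FIN : FIN_stmt := by
  intro G _ _ p
  refine ⟨?_, ?_⟩
  · exact (FIN_fin (α := Subgroup G)).subset fun C hC => hC.strict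
  · intro H P
    exact (FIN_fin (α := Subgroup G)).subset fun C hC =>
      (List.pairwise_cons.1 (FIN_rt p C H P hC)).2

end Pool.Agent.DD
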